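import Pool.Agent.H208.PC.Top

/-!
# Postcritically finite rational maps over `ℚ_p` for infinitely many primes `p > d`

The maps are `a / ((z+1)^d - 1)` with `a ∈ ℚ_p` small, so they have bad reduction.
The definitions `RationalPoints` (the points of the moduli space `M_d` over the algebraic closure of
`ℚ_p` fixed by the Galois group) and `PCF` (conjugacy classes of postcritically finite maps) are
those of the library module `Pool/Graph/R_seed8/Y955/PF/Stm.lean`.
-/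

set_option autoImplicit false

namespace Pool.Agent.Results.MP_505b57_nt.InfiniteLargePrimes

open Pool.Agent.Y955.PF Pool.Agent.H208.PC

/-- 1. Let `d ≥ 2` and let `p` be a prime not dividing `d` such that the orbit of `-1` under
`x ↦ ((x+1)^d - 1)/d` in `𝔽_p` contains `0`. Then `M_d(ℚ_p) ∩ PCF` is infinite.

2. For each `d ≥ 2` there are infinitely many primes `p > d` for which `M_d(ℚ_p) ∩ PCF` is infinite.

3. The set `M_d(ℚ_p) ∩ PCF` is infinite for each prime `p` dividing `d^d - (d-1)^d`, and for each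
`d ≥ 2` such a prime `p > d` exists.

4. For each prime `p ≠ 2` and `d = p - 1` the set `M_d(ℚ_p) ∩ PCF` is infinite. -/
theorem result :
    (∀ (p : ℕ) [Fact p.Prime] (d : ℕ), 2 ≤ d → ¬ p ∣ d →
      (∃ k : ℕ, (fun x : ZMod p => ((x + 1) ^ d - 1) / (d : ZMod p))^[k] (-1) = 0) →
      (RationalPoints p d ∩ PCF (AlgebraicClosure ℚ_[p]) d).Infinite) ∧
    (∀ d : ℕ, 2 ≤ d →
      {p : ℕ | d < p ∧ ∃ _ : Fact p.Prime,
        (RationalPoints p d ∩ PCF (AlgebraicClosure ℚ_[p]) d).Infinite}.Infinite) ∧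
    ((∀ (p : ℕ) [Fact p.Prime] (d : ℕ), 2 ≤ d → (p : ℤ) ∣ (d : ℤ) ^ d - ((d : ℤ) - 1) ^ d →
      (RationalPoints p d ∩ PCF (AlgebraicClosure ℚ_[p]) d).Infinite) ∧
      ∀ d : ℕ, 2 ≤ d → ∃ p : ℕ, d < p ∧ p.Prime ∧ (p : ℤ) ∣ (d : ℤ) ^ d - ((d : ℤ) - 1) ^ d) ∧
    (∀ (p : ℕ) [Fact p.Prime], p ≠ 2 →
      (RationalPoints p (p - 1) ∩ PCF (AlgebraicClosure ℚ_[p]) (p - 1)).Infinite) := by
  have h3 : ∀ (p : ℕ) [Fact p.Prime] (d : ℕ), 2 ≤ d → (p : ℤ) ∣ (d : ℤ) ^ d - ((d : ℤ) - 1) ^ d →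
      (RationalPoints p d ∩ PCF (AlgebraicClosure ℚ_[p]) d).Infinite := by
    intro p _ d hd h
    refine infinite_of_dvd p d hd ⟨2, ?_⟩
    rw [nn_two hd]; exact h
  refine ⟨?_, ?_, ⟨h3, ?_⟩, ?_⟩
  · intro p _ d hd hpd h
    exact infinite_of_dvd p d hd (dvd_of_orbit p d hpd h)
  · intro d hd
    have h1 := (s_inf d hd).2.2
    have h2 := h1.sdiff (Set.finite_Iic d)
    refine h2.mono ?_
    rintro p ⟨⟨hp, k, hk⟩, hpd⟩
    have hlt : d < p := by
      simpa using hpd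
    have hF : Fact p.Prime := ⟨hp⟩
    exact ⟨hlt, hF, infinite_of_dvd p d hd ⟨k, hk⟩⟩
  · intro d hd
    obtain ⟨p, hp, hlt, h⟩ := s_prime d hd
    exact ⟨p, hlt, hp, h⟩
  · intro p hp hp2
    have h5 : 3 ≤ p := by
      have := hp.out.two_le
      omega
    refine h3 p (p - 1) (by omega) ?_
    rw [← ZMod.intCast_zmod_eq_zero_iff_dvd]
    have e1 : ((p - 1 : ℕ) : ZMod p) = -1 := by
      rw [Nat.cast_sub (by omega)]
      simp
    have h2 : (-1 - 1 : ZMod p) ≠ 0 := by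
      have e2 : (-1 - 1 : ZMod p) = -((2 : ℕ) : ZMod p) := by push_cast; ring
      rw [e2, neg_ne_zero, Ne, ZMod.natCast_eq_zero_iff]
      intro h
      have := Nat.le_of_dvd (by omega) h
      omega
    push_cast
    rw [e1]
    rw [ZMod.pow_card_sub_one_eq_one (neg_ne_zero.2 one_ne_zero), ZMod.pow_card_sub_one_eq_one h2,
      sub_self]

end Pool.Agent.Results.MP_505b57_nt.InfiniteLargePrimes
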